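import Pool.Agent.P.MP_542002_pr.Ev

/-!
The abstract non-backtracking argument.  `E` is a set of darts, `o e` the successors of `e`,
`J` the reversal.
-/

namespace Pool.Agent.P.MP_542002_pr

open Finset

variable {E : Type*} [DecidableEq E]

/-- successors, killed on leaving `e0` -/
def oOne (o : E → Finset E) (e0 : E) : E → Finset E := fun e => if e = e0 then ∅ else o e

/-- successors, killed on arriving at `b` -/
def oTwo (o : E → Finset E) (b : E) : E → Finset E := fun e => (o e).erase b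

/-- Comparison of the walk with a killed walk. -/
lemma kill_bound (o o' : E → Finset E) (hsub : ∀ e, o' e ⊆ o e) (s : ℝ) (hs : 0 ≤ s)
    (hcard : ∀ e, s * ((o e).card : ℝ) = 1) (r : E → ℝ) (hr0 : ∀ e, 0 ≤ r e)
    (hr : ∀ e, s * (∑ x ∈ o' e, r x + ((o e \ o' e).card : ℝ)) ≤ r e)
    (ψ : E → ℝ) (hψ : ∀ e, ψ e ≤ 1) (k : ℕ) (e : E) :
    s ^ k * (tr o)^[k] ψ e ≤ 1 ∧ s ^ k * (tr o)^[k] ψ e ≤ s ^ k * (tr o')^[k] ψ e + r e := by
  induction k generalizing e with
  | zero => simpa using ⟨hψ e, hr0 e⟩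
  | succ k ih =>
    rw [Function.iterate_succ_apply', Function.iterate_succ_apply']
    have e1 : s ^ (k + 1) * tr o ((tr o)^[k] ψ) e = s * ∑ x ∈ o e, s ^ k * (tr o)^[k] ψ x := by
      rw [← Finset.mul_sum]; simp only [tr]; ring
    have e2 : s ^ (k + 1) * tr o' ((tr o')^[k] ψ) e
        = s * ∑ x ∈ o' e, s ^ k * (tr o')^[k] ψ x := by
      rw [← Finset.mul_sum]; simp only [tr]; ring
    rw [e1, e2]
    constructor
    · have : ∑ x ∈ o e, s ^ k * (tr o)^[k] ψ x ≤ ∑ x ∈ o e, (1 : ℝ) :=
        Finset.sum_le_sum fun x _ => (ih x).1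
      have h2 := mul_le_mul_of_nonneg_left this hs
      simp only [Finset.sum_const, nsmul_eq_mul, mul_one] at h2
      linarith [hcard e]
    · rw [← Finset.sum_sdiff (hsub e)]
      have a1 : ∑ x ∈ o e \ o' e, s ^ k * (tr o)^[k] ψ x ≤ ∑ x ∈ o e \ o' e, (1 : ℝ) :=
        Finset.sum_le_sum fun x _ => (ih x).1
      have a2 : ∑ x ∈ o' e, s ^ k * (tr o)^[k] ψ x
          ≤ ∑ x ∈ o' e, (s ^ k * (tr o')^[k] ψ x + r x) :=
        Finset.sum_le_sum fun x _ => (ih x).2
      rw [Finset.sum_add_distrib] at a2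
      simp only [Finset.sum_const, nsmul_eq_mul, mul_one] at a1
      have a3 := mul_le_mul_of_nonneg_left (add_le_add a1 a2) hs
      have a4 := hr e
      nlinarith

omit [DecidableEq E] in
lemma iter_tr_one_sub (o : E → Finset E) (s : ℝ) (hcard : ∀ e, s * ((o e).card : ℝ) = 1)
    (ψ : E → ℝ) (k : ℕ) (e : E) :
    s ^ k * (tr o)^[k] (fun x => 1 - ψ x) e = 1 - s ^ k * (tr o)^[k] ψ e := by
  induction k generalizing e with
  | zero => simp
  | succ k ih =>
    rw [Function.iterate_succ_apply', Function.iterate_succ_apply']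
    have e1 : ∀ f : E → ℝ, s ^ (k + 1) * tr o ((tr o)^[k] f) e
        = s * ∑ x ∈ o e, s ^ k * (tr o)^[k] f x := by
      intro f
      rw [← Finset.mul_sum]; simp only [tr]; ring
    rw [e1, e1]
    simp_rw [ih]
    rw [Finset.sum_sub_distrib]
    simp only [Finset.sum_const, nsmul_eq_mul, mul_one]
    linarith [hcard e]

section
variable (o : E → Finset E) (J : E → E) (e0 : E)

/-- Moving one step from the second walk (reversed) to the first. -/
lemma shift_one (hJ : ∀ e, J (J e) = e) (hrev : ∀ e f, f ∈ o e → J e ∈ o (J f))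
    (Z W : Multiset E) :
    ev Z (fun x => ev (step (oTwo o (J e0)) W) (fun y => if x = J y then (1 : ℝ) else 0))
      = ev (step (oOne o e0) Z) (fun x => ev W (fun y => if x = J y then (1 : ℝ) else 0)) := by
  rw [ev_step]
  apply ev_congr
  intro x _
  rw [ev_step]
  simp only [tr]
  rw [← ev_sum]
  apply ev_congr
  intro f _
  have h1 : ∑ y ∈ oTwo o (J e0) f, (if x = J y then (1 : ℝ) else 0)
      = ∑ y ∈ oTwo o (J e0) f, (if J x = y then (1 : ℝ) else 0) := by
    apply Finset.sum_congr rfl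
    intro y _
    congr 1
    apply propext
    constructor
    · rintro rfl; exact hJ y
    · rintro rfl; exact (hJ x).symm
  simp only [tr]
  rw [h1, Finset.sum_ite_eq, Finset.sum_ite_eq']
  congr 1
  apply propext
  simp only [oTwo, oOne, Finset.mem_erase]
  constructor
  · rintro ⟨h2, h3⟩
    have hx : x ≠ e0 := by rintro rfl; exact h2 rfl
    rw [if_neg hx]
    have := hrev _ _ h3
    rwa [hJ] at this
  · intro h
    by_cases hx : x = e0
    · rw [if_pos hx] at h; simp at h
    · rw [if_neg hx] at h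
      refine ⟨?_, ?_⟩
      · intro h2
        apply hx
        rw [← hJ x, h2, hJ]
      · have := hrev _ _ h
        rwa [hJ] at this

lemma shift_all (hJ : ∀ e, J (J e) = e) (hrev : ∀ e f, f ∈ o e → J e ∈ o (J f))
    (l : ℕ) (Z : Multiset E) :
    ev Z (fun x => ev ((step (oTwo o (J e0)))^[l] {J e0})
        (fun y => if x = J y then (1 : ℝ) else 0))
      = ev ((step (oOne o e0))^[l] Z) (fun x => if x = e0 then (1 : ℝ) else 0) := by
  induction l generalizing Z with
  | zero => simp [hJ]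
  | succ l ih =>
    rw [Function.iterate_succ_apply', shift_one o J e0 hJ hrev, ih, Function.iterate_succ_apply]

/-- Two walks ending at the same dart either agreed one step before or merge. -/
lemma merge_one (q : ℕ) (hcard : ∀ e, (o e).card = q)
    (hmerge : ∀ e f x, x ∈ o e → x ∈ o f → e ≠ f → J f ∈ o e) (Z W : Multiset E) :
    ev (step (oOne o e0) Z) (fun x => ev (step (oTwo o (J e0)) W)
        (fun y => if x = y then (1 : ℝ) else 0))
      ≤ q * ev Z (fun x => ev W (fun y => if x = y then (1 : ℝ) else 0))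
        + q * ev (step (oOne o e0) Z)
          (fun x => ev W (fun y => if x = J y then (1 : ℝ) else 0)) := by
  rw [ev_step, ev_step, ← ev_mul, ← ev_mul, ← ev_add]
  apply ev_mono
  intro e _
  simp only [tr]
  simp_rw [ev_step]
  rw [← ev_sum, ← ev_sum, ← ev_mul, ← ev_mul, ← ev_add]
  apply ev_mono
  intro f _
  simp only [tr]
  simp_rw [Finset.sum_ite_eq]
  rw [Finset.sum_ite_eq']
  have hq : (0 : ℝ) ≤ q := Nat.cast_nonneg q
  have hle : ∑ x ∈ oOne o e0 e, (if x ∈ oTwo o (J e0) f then (1 : ℝ) else 0) ≤ q := by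
    have h1 : ∑ x ∈ oOne o e0 e, (if x ∈ oTwo o (J e0) f then (1 : ℝ) else 0)
        ≤ ∑ x ∈ oOne o e0 e, (1 : ℝ) :=
      Finset.sum_le_sum fun x _ => by split_ifs <;> norm_num
    refine h1.trans ?_
    simp only [Finset.sum_const, nsmul_eq_mul, mul_one, oOne]
    split_ifs
    · simp
    · rw [hcard]
  by_cases hef : e = f
  · rw [if_pos hef]
    have : (0 : ℝ) ≤ q * (if J f ∈ oOne o e0 e then (1 : ℝ) else 0) :=
      mul_nonneg hq (by split_ifs <;> norm_num)
    linarith
  · rw [if_neg hef]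
    by_cases hJf : J f ∈ oOne o e0 e
    · rw [if_pos hJf]; linarith
    · rw [if_neg hJf]
      have : ∑ x ∈ oOne o e0 e, (if x ∈ oTwo o (J e0) f then (1 : ℝ) else 0) = 0 := by
        apply Finset.sum_eq_zero
        intro x hx
        rw [if_neg]
        intro hx2
        apply hJf
        simp only [oOne] at hx ⊢
        split_ifs at hx ⊢ with h
        · simp at hx
        · exact hmerge e f x hx (Finset.mem_of_mem_erase hx2) hef
      rw [this]; simp

end

/-- The sum over pairs of lengths. -/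
lemma diag_sum (t : ℝ) (ht0 : 0 < t) (ht1 : t < 1) (c : ℕ → ℝ) (hc : ∀ m, 0 ≤ c m) (X : ℝ)
    (hX : ∀ M, ∑ m ∈ range M, t ^ m * c m ≤ X) (n : ℕ) :
    ∑ k ∈ range n, ∑ l ∈ range n, (t ^ 2) ^ (max k l) * c (k + l + 1)
      ≤ 2 * X / (t * (1 - t)) := by
  have hX0 : 0 ≤ X := by simpa using hX 0
  have half : ∑ k ∈ range n, ∑ l ∈ range n, (if l ≤ k then (t ^ 2) ^ k * c (k + l + 1) else 0)
      ≤ X / (t * (1 - t)) := by
    rw [← Finset.sum_product', ← Finset.sum_filter]
    set S := (range n ×ˢ range n).filter (fun p : ℕ × ℕ => p.2 ≤ p.1) with hS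
    set i : ℕ × ℕ → ℕ × ℕ := fun p => (p.1 - p.2, p.1 + p.2 + 1) with hi
    set F : ℕ × ℕ → ℝ := fun p => t ^ p.1 * (t ^ p.2 * c p.2) / t with hF
    have h1 : ∑ p ∈ S, (t ^ 2) ^ p.1 * c (p.1 + p.2 + 1) = ∑ p ∈ S, F (i p) := by
      apply Finset.sum_congr rfl
      intro p hp
      have hle : p.2 ≤ p.1 := (Finset.mem_filter.mp hp).2
      obtain ⟨j, hj⟩ := Nat.exists_eq_add_of_le hle
      simp only [hF, hi, hj, Nat.add_sub_cancel_left]
      field_simp
      ring
    have hinj : Set.InjOn i S := by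
      intro p hp p' hp' h
      have hle : p.2 ≤ p.1 := (Finset.mem_filter.mp hp).2
      have hle' : p'.2 ≤ p'.1 := (Finset.mem_filter.mp hp').2
      simp only [hi, Prod.mk.injEq] at h
      ext <;> omega
    rw [h1, ← Finset.sum_image hinj]
    have hsub : S.image i ⊆ range n ×ˢ range (2 * n) := by
      intro p hp
      obtain ⟨p', hp', rfl⟩ := Finset.mem_image.mp hp
      have h2 := (Finset.mem_filter.mp hp').1
      simp only [Finset.mem_product, Finset.mem_range, hi] at h2 ⊢
      omega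
    have hFnn : ∀ p, 0 ≤ F p := fun p =>
      div_nonneg (mul_nonneg (pow_nonneg ht0.le _) (mul_nonneg (pow_nonneg ht0.le _) (hc _))) ht0.le
    refine (Finset.sum_le_sum_of_subset_of_nonneg hsub fun p _ _ => hFnn p).trans ?_
    rw [Finset.sum_product]
    simp only [hF]
    simp_rw [← Finset.sum_div, ← Finset.mul_sum]
    rw [← Finset.sum_mul]
    have g1 : ∑ j ∈ range n, t ^ j ≤ 1 / (1 - t) := by
      have := geom_sum_mul_neg t n
      rw [le_div_iff₀ (by linarith), this]
      have := pow_nonneg ht0.le n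
      linarith
    have g2 : (∑ j ∈ range n, t ^ j) * ∑ m ∈ range (2 * n), t ^ m * c m ≤ 1 / (1 - t) * X := by
      apply mul_le_mul g1 (hX _)
      · exact Finset.sum_nonneg fun m _ => mul_nonneg (pow_nonneg ht0.le _) (hc _)
      · exact div_nonneg zero_le_one (by linarith)
    have h1t : 0 < 1 - t := by linarith
    calc _ ≤ (1 / (1 - t) * X) / t := div_le_div_of_nonneg_right g2 ht0.le
      _ = X / (t * (1 - t)) := by field_simp
  have half2 : ∑ k ∈ range n, ∑ l ∈ range n, (if k ≤ l then (t ^ 2) ^ l * c (k + l + 1) else 0)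
      ≤ X / (t * (1 - t)) := by
    rw [Finset.sum_comm]
    refine le_trans (le_of_eq ?_) half
    apply Finset.sum_congr rfl
    intro k _
    apply Finset.sum_congr rfl
    intro l _
    rw [add_comm l k]
  have h3 : ∑ k ∈ range n, ∑ l ∈ range n, (t ^ 2) ^ (max k l) * c (k + l + 1)
      ≤ ∑ k ∈ range n, ∑ l ∈ range n, ((if l ≤ k then (t ^ 2) ^ k * c (k + l + 1) else 0)
        + (if k ≤ l then (t ^ 2) ^ l * c (k + l + 1) else 0)) := by
    apply Finset.sum_le_sum
    intro k _
    apply Finset.sum_le_sum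
    intro l _
    have p1 : 0 ≤ (t ^ 2) ^ k * c (k + l + 1) := mul_nonneg (by positivity) (hc _)
    have p2 : 0 ≤ (t ^ 2) ^ l * c (k + l + 1) := mul_nonneg (by positivity) (hc _)
    rcases le_total l k with h | h
    · rw [max_eq_left h, if_pos h]
      split_ifs <;> linarith
    · rw [max_eq_right h, if_pos h]
      split_ifs <;> linarith
  simp_rw [Finset.sum_add_distrib] at h3
  have : 2 * X / (t * (1 - t)) = X / (t * (1 - t)) + X / (t * (1 - t)) := by ring
  linarith

/-- Summing a diagonal recursion. -/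
lemma diag_rec (b D : ℕ → ℕ → ℝ) (hrec : ∀ k l, b (k + 1) (l + 1) ≤ b k l + D k l)
    (hb : ∀ l, 0 ≤ b 0 l) (X Y Z : ℝ)
    (hX : ∀ n, ∑ k ∈ range n, ∑ l ∈ range n, D k l ≤ X)
    (hY : ∀ n, ∑ k ∈ range n, b k 0 ≤ Y) (hZ : ∀ n, ∑ l ∈ range n, b 0 l ≤ Z) (n : ℕ) :
    ∑ k ∈ range n, ∑ l ∈ range n, b k l ≤ n * (X + Y + Z) := by
  induction n with
  | zero => simp
  | succ n ih =>
    rw [Finset.sum_range_succ']
    simp_rw [Finset.sum_range_succ' (fun l => b (_ + 1) l)]
    rw [Finset.sum_add_distrib]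
    have h1 : ∑ k ∈ range n, ∑ l ∈ range n, b (k + 1) (l + 1)
        ≤ ∑ k ∈ range n, ∑ l ∈ range n, (b k l + D k l) :=
      Finset.sum_le_sum fun k _ => Finset.sum_le_sum fun l _ => hrec k l
    simp_rw [Finset.sum_add_distrib] at h1
    have h2 := hY (n + 1)
    rw [Finset.sum_range_succ'] at h2
    have h3 := hZ (n + 1)
    have h4 := hX n
    have h5 := hb 0
    push_cast
    linarith

end Pool.Agent.P.MP_542002_pr
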