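import Mathlib

/-!
Finite multisets used as counting measures: evaluation, one step of a walk, double evaluation.
-/

namespace Pool.Agent.P.MP_542002_pr

open Finset

variable {E : Type*}

/-- Sum of a function over a multiset. -/
noncomputable def ev (Z : Multiset E) (f : E → ℝ) : ℝ := (Z.map f).sum

/-- One step of a walk with successor sets `o`. -/
def step (o : E → Finset E) (Z : Multiset E) : Multiset E := Z.bind (fun y => (o y).val)

/-- The transfer operator of the successor sets `o`. -/
noncomputable def tr (o : E → Finset E) (f : E → ℝ) : E → ℝ := fun e => ∑ x ∈ o e, f x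

@[simp] lemma ev_zero (f : E → ℝ) : ev 0 f = 0 := by simp [ev]

@[simp] lemma ev_cons (a : E) (Z : Multiset E) (f : E → ℝ) : ev (a ::ₘ Z) f = f a + ev Z f := by
  simp [ev]

@[simp] lemma ev_singleton (a : E) (f : E → ℝ) : ev {a} f = f a := by simp [ev]

lemma ev_add_left (Z W : Multiset E) (f : E → ℝ) : ev (Z + W) f = ev Z f + ev W f := by
  simp [ev]

lemma ev_mono {Z : Multiset E} {f g : E → ℝ} (h : ∀ x ∈ Z, f x ≤ g x) : ev Z f ≤ ev Z g :=
  Multiset.sum_map_le_sum_map f g h

lemma ev_congr {Z : Multiset E} {f g : E → ℝ} (h : ∀ x ∈ Z, f x = g x) : ev Z f = ev Z g :=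
  le_antisymm (ev_mono fun x hx => (h x hx).le) (ev_mono fun x hx => (h x hx).ge)

lemma ev_add (Z : Multiset E) (f g : E → ℝ) :
    ev Z (fun x => f x + g x) = ev Z f + ev Z g := by
  simp [ev, Multiset.sum_map_add]

lemma ev_mul (Z : Multiset E) (c : ℝ) (f : E → ℝ) :
    ev Z (fun x => c * f x) = c * ev Z f := by
  simp [ev, Multiset.sum_map_mul_left]

lemma ev_const_zero (Z : Multiset E) : ev Z (fun _ => 0) = 0 := by simp [ev]

lemma ev_nonneg {Z : Multiset E} {f : E → ℝ} (h : ∀ x ∈ Z, 0 ≤ f x) : 0 ≤ ev Z f := by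
  have := ev_mono (Z := Z) (f := fun _ => 0) (g := f) h
  rwa [ev_const_zero] at this

lemma ev_sum {ι : Type*} (Z : Multiset E) (s : Finset ι) (F : ι → E → ℝ) :
    ev Z (fun x => ∑ i ∈ s, F i x) = ∑ i ∈ s, ev Z (F i) := by
  induction Z using Multiset.induction_on with
  | empty => simp
  | cons a Z ih => simp [ih, Finset.sum_add_distrib]

lemma ev_comm (Z W : Multiset E) (F : E → E → ℝ) :
    ev Z (fun x => ev W (fun y => F x y)) = ev W (fun y => ev Z (fun x => F x y)) := by
  induction Z using Multiset.induction_on with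
  | empty => simp [ev_const_zero]
  | cons a Z ih => simp [ih, ev_add]

lemma ev_step (o : E → Finset E) (Z : Multiset E) (f : E → ℝ) :
    ev (step o Z) f = ev Z (tr o f) := by
  induction Z using Multiset.induction_on with
  | empty => simp [step]
  | cons a Z ih =>
    have : step o (a ::ₘ Z) = (o a).val + step o Z := by simp [step]
    rw [this, ev_add_left, ih, ev_cons]
    rfl

lemma ev_iter (o : E → Finset E) (k : ℕ) (Z : Multiset E) (f : E → ℝ) :
    ev ((step o)^[k] Z) f = ev Z ((tr o)^[k] f) := by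
  induction k generalizing Z with
  | zero => rfl
  | succ k ih => rw [Function.iterate_succ_apply, ih, ev_step, Function.iterate_succ_apply']

lemma one_le_ev_ind [DecidableEq E] {W : Multiset E} {x : E} (h : x ∈ W) :
    1 ≤ ev W (fun y => if x = y then (1 : ℝ) else 0) := by
  obtain ⟨W', rfl⟩ := Multiset.exists_cons_of_mem h
  have : 0 ≤ ev W' (fun y => if x = y then (1 : ℝ) else 0) :=
    ev_nonneg fun y _ => by split_ifs <;> norm_num
  simp only [ev_cons, if_true]
  linarith

lemma ev_ind_eq_zero [DecidableEq E] {W : Multiset E} {x : E} (h : x ∉ W) :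
    ev W (fun y => if x = y then (1 : ℝ) else 0) = 0 := by
  refine (ev_congr (g := fun _ => 0) ?_).trans (ev_const_zero W)
  intro y hy
  rw [if_neg]
  rintro rfl
  exact h hy

lemma ev_ind_nonneg [DecidableEq E] (W : Multiset E) (x : E) :
    0 ≤ ev W (fun y => if x = y then (1 : ℝ) else 0) :=
  ev_nonneg fun y _ => by split_ifs <;> norm_num

/-- Green function bound from a supersolution. -/
lemma green_bound (o : E → Finset E) (w : ℝ) (hw : 0 ≤ w) (δ r : E → ℝ) (hr : ∀ e, 0 ≤ r e)
    (h : ∀ e, δ e + w * ∑ x ∈ o e, r x ≤ r e) (M : ℕ) (e : E) :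
    ∑ m ∈ range M, w ^ m * (tr o)^[m] δ e ≤ r e := by
  induction M generalizing e with
  | zero => simpa using hr e
  | succ M ih =>
    rw [Finset.sum_range_succ']
    have h1 : ∑ m ∈ range M, w ^ (m + 1) * (tr o)^[m + 1] δ e
        = w * ∑ x ∈ o e, ∑ m ∈ range M, w ^ m * (tr o)^[m] δ x := by
      rw [Finset.sum_comm, Finset.mul_sum]
      apply Finset.sum_congr rfl
      intro m _
      rw [Function.iterate_succ_apply', ← Finset.mul_sum]
      simp only [tr]
      ring
    rw [h1]
    have h2 : ∑ x ∈ o e, ∑ m ∈ range M, w ^ m * (tr o)^[m] δ x ≤ ∑ x ∈ o e, r x :=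
      Finset.sum_le_sum fun x _ => ih x
    have h3 := mul_le_mul_of_nonneg_left h2 hw
    have h4 := h e
    simp only [pow_zero, one_mul, Function.iterate_zero, id]
    linarith

lemma iter_tr_nonneg (o : E → Finset E) (f : E → ℝ) (hf : ∀ e, 0 ≤ f e) (k : ℕ) (e : E) :
    0 ≤ (tr o)^[k] f e := by
  induction k generalizing e with
  | zero => exact hf e
  | succ k ih =>
    rw [Function.iterate_succ_apply']
    exact Finset.sum_nonneg fun x _ => ih x

/-- One-sided covering lemma. -/
lemma cover_one [DecidableEq E] (Z W : ℕ → Multiset E) (s : ℝ) (hs0 : 0 ≤ s) (n : ℕ) (χ : E → ℝ)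
    (hχ : ∀ x, χ x ≤ 0 ∨ (χ x ≤ 1 ∧
      ∑ k ∈ range n, s ^ k * ev (Z k) (fun y => if x = y then (1 : ℝ) else 0)
        ≤ ∑ l ∈ range n, s ^ l * ev (W l) (fun y => if x = y then (1 : ℝ) else 0))) :
    ∑ k ∈ range n, s ^ k * ev (Z k) χ ≤ ∑ k ∈ range n, ∑ l ∈ range n,
      s ^ (max k l) * ev (Z k) (fun x => ev (W l) (fun y => if x = y then (1 : ℝ) else 0)) := by
  apply Finset.sum_le_sum
  intro k hk
  rw [← ev_mul]
  simp_rw [← ev_mul]
  rw [← ev_sum]
  apply ev_mono
  intro x hx
  have hnn : ∀ l, 0 ≤ ev (W l) (fun y => s ^ (max k l) * if x = y then (1 : ℝ) else 0) := by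
    intro l
    rw [ev_mul]
    exact mul_nonneg (pow_nonneg hs0 _) (ev_ind_nonneg _ _)
  rcases hχ x with h | ⟨h1, h2⟩
  · have : s ^ k * χ x ≤ 0 := mul_nonpos_of_nonneg_of_nonpos (pow_nonneg hs0 _) h
    exact this.trans (Finset.sum_nonneg fun l _ => hnn l)
  · have h3 : s ^ k * χ x ≤ s ^ k := by
      have := mul_le_mul_of_nonneg_left h1 (pow_nonneg hs0 k)
      simpa using this
    refine h3.trans ?_
    by_cases hex : ∃ l ∈ range n, l ≤ k ∧ x ∈ W l
    · obtain ⟨l, hl, hlk, hxl⟩ := hex
      have h5 := Finset.single_le_sum (f := fun l =>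
        ev (W l) (fun y => s ^ (max k l) * if x = y then (1 : ℝ) else 0))
        (fun l _ => hnn l) hl
      refine le_trans ?_ h5
      simp only [ev_mul]
      rw [max_eq_left hlk]
      have := mul_le_mul_of_nonneg_left (one_le_ev_ind hxl) (pow_nonneg hs0 k)
      simpa using this
    · push Not at hex
      have h5 : s ^ k ≤ ∑ k ∈ range n, s ^ k * ev (Z k) (fun y => if x = y then (1 : ℝ) else 0) := by
        have h6 := Finset.single_le_sum (f := fun k =>
          s ^ k * ev (Z k) (fun y => if x = y then (1 : ℝ) else 0))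
          (fun l _ => mul_nonneg (pow_nonneg hs0 _) (ev_ind_nonneg _ _)) hk
        refine le_trans ?_ h6
        have := mul_le_mul_of_nonneg_left (one_le_ev_ind hx) (pow_nonneg hs0 k)
        simpa using this
      refine h5.trans (h2.trans (le_of_eq ?_))
      apply Finset.sum_congr rfl
      intro l hl
      rw [ev_mul]
      by_cases hlk : l ≤ k
      · rw [ev_ind_eq_zero (hex l hl hlk)]
        simp
      · rw [max_eq_right (le_of_lt (not_le.mp hlk))]

/-- Pointwise limits of bounded families along an ultrafilter. -/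
lemma exists_ultralimit {ι : Type*} (F : ℕ → ι → ℝ) (a b : ι → ℝ)
    (h : ∀ n i, F n i ∈ Set.Icc (a i) (b i)) :
    ∃ (U : Filter ℕ) (f : ι → ℝ), U.NeBot ∧ U ≤ Filter.atTop ∧
      ∀ i, Filter.Tendsto (fun n => F n i) U (nhds (f i)) := by
  have key : ∀ i, ∃ y, Filter.Tendsto (fun n => F n i) (Filter.hyperfilter ℕ) (nhds y) := by
    intro i
    have hc : IsCompact (Set.Icc (a i) (b i)) := isCompact_Icc
    obtain ⟨y, _, hy⟩ := hc.ultrafilter_le_nhds ((Filter.hyperfilter ℕ).map (fun n => F n i))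
      (by
        rw [Ultrafilter.coe_map, Filter.le_principal_iff, Filter.mem_map]
        exact Filter.univ_mem' fun n => h n i)
    exact ⟨y, hy⟩
  choose f hf using key
  refine ⟨Filter.hyperfilter ℕ, f, inferInstance, ?_, hf⟩
  rw [← Nat.cofinite_eq_atTop]
  exact Filter.hyperfilter_le_cofinite

end Pool.Agent.P.MP_542002_pr
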