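import Pool.Agent.P.MP_542002_pr.Ev

/-!
A positive supersolution at the bottom of the spectrum, and its Harnack inequality.
-/

namespace Pool.Agent.P.MP_542002_pr

open Finset

variable {V : Type*} (G : SimpleGraph V) [G.LocallyFinite]

lemma card_walk_succ [DecidableEq V] (n : ℕ) (u v : V) :
    ((G.finsetWalkLength (n + 1) u v).card : ℝ)
      = ∑ w ∈ G.neighborFinset u, ((G.finsetWalkLength n w v).card : ℝ) := by
  simp only [SimpleGraph.finsetWalkLength]
  rw [Finset.card_biUnion]
  · simp only [Nat.cast_sum, card_map, SimpleGraph.neighborFinset_def]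
    symm
    exact Finset.sum_subtype _ (fun x => Set.mem_toFinset)
      (fun w => ((G.finsetWalkLength n w v).card : ℝ))
  · rintro ⟨x, hx⟩ - ⟨y, hy⟩ - hxy
    rw [Function.onFun, disjoint_iff_inf_le]
    intro p hp
    simp only [inf_eq_inter, mem_inter, mem_map] at hp
    obtain ⟨⟨px, _, rfl⟩, ⟨py, hpy, hp⟩⟩ := hp
    cases hp
    simp at hxy

/-- A positive supersolution strictly below the threshold, normalised at `o`. -/
lemma super_below [DecidableEq V] (hc : G.Connected) (o : V) (z : ℝ) (hz : 0 < z)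
    (hs : Summable fun n : ℕ => z ^ n * ((G.finsetWalkLength n o o).card : ℝ)) :
    ∃ h : V → ℝ, h o = 1 ∧ (∀ x, 0 ≤ h x) ∧ ∀ x, z * ∑ y ∈ G.neighborFinset x, h y ≤ h x := by
  have hnn : ∀ x n, 0 ≤ z ^ n * ((G.finsetWalkLength n x o).card : ℝ) := fun x n => by positivity
  have hadj : ∀ x y, G.Adj x y →
      (Summable fun n : ℕ => z ^ n * ((G.finsetWalkLength n x o).card : ℝ)) →
      Summable fun n : ℕ => z ^ n * ((G.finsetWalkLength n y o).card : ℝ) := by
    intro x y hxy hx
    have h1 := ((summable_nat_add_iff 1).mpr hx).mul_left z⁻¹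
    refine Summable.of_nonneg_of_le (hnn y) (fun n => ?_) h1
    rw [card_walk_succ]
    have h2 : ((G.finsetWalkLength n y o).card : ℝ)
        ≤ ∑ w ∈ G.neighborFinset x, ((G.finsetWalkLength n w o).card : ℝ) :=
      Finset.single_le_sum (f := fun w => ((G.finsetWalkLength n w o).card : ℝ))
        (fun w _ => Nat.cast_nonneg _) ((G.mem_neighborFinset x y).mpr hxy)
    have h3 : z⁻¹ * (z ^ (n + 1) * ∑ w ∈ G.neighborFinset x, ((G.finsetWalkLength n w o).card : ℝ))
        = z ^ n * ∑ w ∈ G.neighborFinset x, ((G.finsetWalkLength n w o).card : ℝ) := by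
      field_simp
      ring
    rw [h3]
    exact mul_le_mul_of_nonneg_left h2 (by positivity)
  have hwalk : ∀ x y, G.Walk x y →
      (Summable fun n : ℕ => z ^ n * ((G.finsetWalkLength n x o).card : ℝ)) →
      Summable fun n : ℕ => z ^ n * ((G.finsetWalkLength n y o).card : ℝ) := by
    intro x y p
    induction p with
    | nil => exact id
    | cons h _ ih => exact fun hx => ih (hadj _ _ h hx)
  have hall : ∀ x, Summable fun n : ℕ => z ^ n * ((G.finsetWalkLength n x o).card : ℝ) := by
    intro x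
    obtain ⟨p⟩ := hc.preconnected o x
    exact hwalk o x p hs
  set g : V → ℝ := fun x => ∑' n : ℕ, z ^ n * ((G.finsetWalkLength n x o).card : ℝ) with hg
  have hg0 : ∀ x, 0 ≤ g x := fun x => tsum_nonneg (hnn x)
  have hgo : 1 ≤ g o := by
    have := (hall o).le_tsum 0 (fun n _ => hnn o n)
    simpa [SimpleGraph.finsetWalkLength] using this
  have hgs : ∀ x, z * ∑ y ∈ G.neighborFinset x, g y ≤ g x := by
    intro x
    have h1 := (hall x).tsum_eq_zero_add
    have h2 : ∑' n : ℕ, z ^ (n + 1) * ((G.finsetWalkLength (n + 1) x o).card : ℝ)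
        = z * ∑ y ∈ G.neighborFinset x, g y := by
      simp only [hg]
      rw [← Summable.tsum_finsetSum (fun y _ => hall y), ← tsum_mul_left]
      apply tsum_congr
      intro n
      rw [card_walk_succ, ← Finset.mul_sum]
      ring
    have h3 := hnn x 0
    simp only [hg] at h2 ⊢
    linarith
  have hgo' : 0 < g o := by linarith
  refine ⟨fun x => g x / g o, div_self hgo'.ne', fun x => div_nonneg (hg0 x) hgo'.le, fun x => ?_⟩
  rw [← Finset.sum_div, ← mul_div_assoc]
  exact div_le_div_of_nonneg_right (hgs x) hgo'.le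

lemma walk_harnack (z : ℝ) (hz : 0 < z) (h : V → ℝ) (h0 : ∀ x, 0 ≤ h x)
    (hs : ∀ x, z * ∑ y ∈ G.neighborFinset x, h y ≤ h x) {x y : V} (p : G.Walk x y) :
    z ^ p.length * h y ≤ h x := by
  induction p with
  | nil => simp
  | @cons a b c hab p ih =>
    have h1 : h b ≤ ∑ y ∈ G.neighborFinset a, h y :=
      Finset.single_le_sum (fun w _ => h0 w) ((G.mem_neighborFinset a b).mpr hab)
    have h2 := mul_le_mul_of_nonneg_left (ih.trans h1) hz.le
    rw [SimpleGraph.Walk.length_cons, pow_succ]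
    nlinarith [hs a]

/-- A positive supersolution at the threshold. -/
lemma super_at [DecidableEq V] (hc : G.Connected) (o : V) (z0 : ℝ) (hz0 : 0 < z0)
    (hs : ∀ z, 0 < z → z < z0 →
      Summable fun n : ℕ => z ^ n * ((G.finsetWalkLength n o o).card : ℝ)) :
    ∃ h : V → ℝ, (∀ x, 0 < h x) ∧ ∀ x, z0 * ∑ y ∈ G.neighborFinset x, h y ≤ h x := by
  set z : ℕ → ℝ := fun n => z0 * (1 - 1 / ((n : ℝ) + 1) / 2) with hz
  have hn : ∀ n : ℕ, 0 < 1 / ((n : ℝ) + 1) ∧ 1 / ((n : ℝ) + 1) ≤ 1 := by
    intro n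
    have : (0 : ℝ) ≤ n := Nat.cast_nonneg n
    refine ⟨by positivity, ?_⟩
    rw [div_le_one (by linarith)]
    linarith
  have hz1 : ∀ n, z0 / 2 ≤ z n := fun n => by simp only [hz]; nlinarith [hn n]
  have hz2 : ∀ n, z n < z0 := fun n => by simp only [hz]; nlinarith [hn n]
  have hzp : ∀ n, 0 < z n := fun n => by linarith [hz1 n]
  have hlim : Filter.Tendsto z Filter.atTop (nhds z0) := by
    have h1 := ((tendsto_one_div_add_atTop_nhds_zero_nat (𝕜 := ℝ)).div_const 2).const_sub 1
    have h2 := h1.const_mul z0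
    simp only [zero_div, sub_zero, mul_one] at h2
    exact h2
  choose h ho h0 hh using fun n => super_below G hc o (z n) (hzp n) (hs _ (hzp n) (hz2 n))
  have hh' : ∀ n x, z0 / 2 * ∑ y ∈ G.neighborFinset x, h n y ≤ h n x := fun n x =>
    (mul_le_mul_of_nonneg_right (hz1 n) (Finset.sum_nonneg fun y _ => h0 n y)).trans (hh n x)
  have hp : ∀ x, Nonempty (G.Walk x o) := fun x => hc.preconnected x o
  set p : ∀ x, G.Walk x o := fun x => (hp x).some
  have hz0' : 0 < z0 / 2 := by linarith
  obtain ⟨U, f, hU, hUle, hf⟩ := exists_ultralimit h (fun x => (z0 / 2) ^ (p x).length)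
    (fun x => 1 / (z0 / 2) ^ (p x).length) (by
      intro n x
      constructor
      · have := walk_harnack G _ hz0' (h n) (h0 n) (hh' n) (p x)
        rwa [ho n, mul_one] at this
      · have := walk_harnack G _ hz0' (h n) (h0 n) (hh' n) (p x).reverse
        rw [ho n, SimpleGraph.Walk.length_reverse] at this
        rw [le_div_iff₀ (by positivity)]
        linarith)
  refine ⟨f, fun x => ?_, fun x => ?_⟩
  · have : (z0 / 2) ^ (p x).length ≤ f x := by
      apply ge_of_tendsto' (hf x)
      intro n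
      have := walk_harnack G _ hz0' (h n) (h0 n) (hh' n) (p x)
      rwa [ho n, mul_one] at this
    exact lt_of_lt_of_le (by positivity) this
  · exact le_of_tendsto_of_tendsto' ((hlim.mono_left hUle).mul
      (tendsto_finsetSum _ fun y _ => hf y)) (hf x) fun n => hh n x

/-- The sharp Harnack inequality at the tree threshold. -/
lemma sharp_harnack [DecidableEq V] (q : ℕ) (hreg : G.IsRegularOfDegree (q + 1)) (t : ℝ)
    (ht0 : 0 < t) (htq : t ^ 2 * q = 1) (h : V → ℝ) (h0 : ∀ x, 0 < h x)
    (hs : ∀ x, t * ∑ y ∈ G.neighborFinset x, h y ≤ 2 * h x) {u v : V} (huv : G.Adj u v) :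
    t * h u ≤ h v := by
  set S : Set ℝ := {r | ∃ a b, G.Adj a b ∧ r = h b / h a} with hS
  have hne : S.Nonempty := ⟨_, u, v, huv, rfl⟩
  have hbdd : BddBelow S := ⟨0, by
    rintro r ⟨a, b, _, rfl⟩
    exact div_nonneg (h0 b).le (h0 a).le⟩
  set τ := sInf S with hτ
  have hτle : ∀ a b, G.Adj a b → τ * h a ≤ h b := by
    intro a b hab
    have : τ ≤ h b / h a := csInf_le hbdd ⟨a, b, hab, rfl⟩
    rwa [le_div_iff₀ (h0 a)] at this
  have hkey : ∀ a b, G.Adj a b → t * h a ≤ (2 - t * q * τ) * h b := by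
    intro a b hab
    have ha : a ∈ G.neighborFinset b := (G.mem_neighborFinset b a).mpr hab.symm
    have h1 := Finset.add_sum_erase (G.neighborFinset b) h ha
    have h2 : ∑ y ∈ (G.neighborFinset b).erase a, τ * h b
        ≤ ∑ y ∈ (G.neighborFinset b).erase a, h y := by
      apply Finset.sum_le_sum
      intro y hy
      exact hτle b y ((G.mem_neighborFinset b y).mp (Finset.mem_of_mem_erase hy))
    rw [Finset.sum_const, Finset.card_erase_of_mem ha, G.card_neighborFinset_eq_degree, hreg b,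
      Nat.add_sub_cancel, nsmul_eq_mul] at h2
    have h3 := hs b
    rw [← h1] at h3
    nlinarith
  have hpos : 0 < 2 - t * q * τ := by
    have h1 := hkey u v huv
    have h2 : 0 < t * h u := mul_pos ht0 (h0 u)
    by_contra hneg
    have := mul_nonpos_of_nonpos_of_nonneg (not_lt.mp hneg) (h0 v).le
    linarith
  have hlow : t / (2 - t * q * τ) ≤ τ := by
    apply le_csInf hne
    rintro r ⟨a, b, hab, rfl⟩
    rw [div_le_div_iff₀ hpos (h0 a)]
    have := hkey a b hab
    linarith
  rw [div_le_iff₀ hpos] at hlow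
  have hq : (q : ℝ) = 1 / t ^ 2 := by
    field_simp
    linarith
  have htτ : t ≤ τ := by
    rw [hq] at hlow
    have h1 : τ * (2 - t * (1 / t ^ 2) * τ) = (2 * τ * t - τ ^ 2) / t := by
      field_simp
    rw [h1, le_div_iff₀ ht0] at hlow
    nlinarith [sq_nonneg (τ - t)]
  exact (mul_le_mul_of_nonneg_right htτ (h0 u).le).trans (hτle u v huv)

/-- The supersolution takes arbitrarily small values. -/
lemma inf_zero [Nonempty V] (q : ℕ) (hreg : G.IsRegularOfDegree (q + 1)) (t : ℝ)
    (ht0 : 0 < t) (ht1 : t < 1) (htq : t ^ 2 * q = 1) (h : V → ℝ) (h0 : ∀ x, 0 < h x)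
    (hs : ∀ x, t * ∑ y ∈ G.neighborFinset x, h y ≤ 2 * h x) (ε : ℝ) (hε : 0 < ε) :
    ∃ v, h v < ε := by
  have hbdd : BddBelow (Set.range h) := ⟨0, by rintro r ⟨a, rfl⟩; exact (h0 a).le⟩
  set c := ⨅ x, h x with hc
  have hcle : ∀ x, c ≤ h x := fun x => ciInf_le hbdd x
  have hc0 : 0 ≤ c := le_ciInf fun x => (h0 x).le
  have h1 : t * (q + 1) * c / 2 ≤ c := by
    apply le_ciInf
    intro x
    have h2 : ∑ y ∈ G.neighborFinset x, c ≤ ∑ y ∈ G.neighborFinset x, h y :=
      Finset.sum_le_sum fun y _ => hcle y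
    rw [Finset.sum_const, G.card_neighborFinset_eq_degree, hreg x, nsmul_eq_mul] at h2
    push_cast at h2
    have h3 := hs x
    nlinarith
  have h4 : 2 < t * (q + 1) := by
    have : 0 < (1 - t) ^ 2 := by
      have : 0 < 1 - t := by linarith
      positivity
    have h5 : t * (t * (q + 1) - 2) = (1 - t) ^ 2 := by
      linear_combination htq
    by_contra hneg
    have := mul_nonpos_of_nonneg_of_nonpos ht0.le (sub_nonpos.mpr (not_lt.mp hneg))
    linarith
  have hcz : c < ε := by nlinarith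
  exact exists_lt_of_ciInf_lt hcz

end Pool.Agent.P.MP_542002_pr
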