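import Pool.Agent.P.MP_542002_pr.Main
import Pool.Agent.P.MP_542002_pr.Super

/-!
From a positive supersolution on a regular graph to a bounded non-constant harmonic function.
-/

namespace Pool.Agent.P.MP_542002_pr

open Finset

variable {V : Type*} [DecidableEq V] (G : SimpleGraph V) [G.LocallyFinite]

/-- Non-backtracking successors of a dart. -/
noncomputable def outD (e : G.Dart) : Finset G.Dart :=
  ((G.neighborFinset e.snd).erase e.fst).attach.map
    ⟨fun w => ⟨(e.snd, w.1), (G.mem_neighborFinset _ _).mp (Finset.mem_of_mem_erase w.2)⟩, by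
      intro a b h
      have := congrArg (fun d : G.Dart => d.snd) h
      exact Subtype.ext this⟩

lemma mem_outD {e x : G.Dart} : x ∈ outD G e ↔ x.fst = e.snd ∧ x.snd ≠ e.fst := by
  simp only [outD, Finset.mem_map, Finset.mem_attach, true_and]
  constructor
  · rintro ⟨w, rfl⟩
    exact ⟨rfl, Finset.ne_of_mem_erase w.2⟩
  · rintro ⟨h1, h2⟩
    refine ⟨⟨x.snd, Finset.mem_erase.mpr ⟨h2, (G.mem_neighborFinset _ _).mpr (h1 ▸ x.adj)⟩⟩, ?_⟩
    apply SimpleGraph.Dart.ext
    ext
    · exact h1.symm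
    · rfl

lemma sum_outD (e : G.Dart) (F : V → V → ℝ) :
    ∑ x ∈ outD G e, F x.fst x.snd = ∑ w ∈ G.neighborFinset e.snd, F e.snd w - F e.snd e.fst := by
  have ha : e.fst ∈ G.neighborFinset e.snd := (G.mem_neighborFinset _ _).mpr e.adj.symm
  rw [← Finset.add_sum_erase _ _ ha, add_sub_cancel_left]
  simp only [outD, Finset.sum_map]
  exact Finset.sum_attach _ (fun w => F e.snd w)

lemma card_outD (q : ℕ) (hreg : G.IsRegularOfDegree (q + 1)) (e : G.Dart) :
    (outD G e).card = q := by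
  have ha : e.fst ∈ G.neighborFinset e.snd := (G.mem_neighborFinset _ _).mpr e.adj.symm
  simp only [outD, Finset.card_map, Finset.card_attach]
  rw [Finset.card_erase_of_mem ha, G.card_neighborFinset_eq_degree, hreg, Nat.add_sub_cancel]

theorem harmonic_of_super [Nonempty V] (q : ℕ) (hreg : G.IsRegularOfDegree (q + 1)) (t : ℝ)
    (ht0 : 0 < t) (ht1 : t < 1) (htq : t ^ 2 * q = 1) (h : V → ℝ) (h0 : ∀ x, 0 < h x)
    (hs : ∀ x, t * ∑ y ∈ G.neighborFinset x, h y ≤ 2 * h x) :
    ∃ f : V → ℝ, (∃ C : ℝ, ∀ v, |f v| ≤ C) ∧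
      (∀ v, ((q : ℝ) + 1) * f v = ∑ w ∈ G.neighborFinset v, f w) ∧ ∃ x y, f x ≠ f y := by
  classical
  have har : ∀ {u v : V}, G.Adj u v → t * h u ≤ h v := fun huv =>
    sharp_harnack G q hreg t ht0 htq h h0 hs huv
  have hnb : ∀ v, ∃ w, G.Adj v w := by
    intro v
    have : 0 < (G.neighborFinset v).card := by
      rw [G.card_neighborFinset_eq_degree, hreg]; omega
    obtain ⟨w, hw⟩ := Finset.card_pos.mp this
    exact ⟨w, (G.mem_neighborFinset _ _).mp hw⟩
  have hcardN : ∀ v, ((G.neighborFinset v).card : ℝ) = q + 1 := by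
    intro v
    rw [G.card_neighborFinset_eq_degree, hreg]; push_cast; ring
  have hsum : ∀ (c : ℝ) (e : G.Dart), ∑ x ∈ outD G e, (h x.snd - c * h x.fst)
      = ∑ w ∈ G.neighborFinset e.snd, h w - h e.fst - c * q * h e.snd := by
    intro c e
    rw [sum_outD G e (fun a b => h b - c * h a), Finset.sum_sub_distrib, Finset.sum_const,
      nsmul_eq_mul, hcardN]
    ring
  obtain ⟨e0, he0⟩ : ∃ e0 : G.Dart, 0 < h e0.snd - t * h e0.fst := by
    obtain ⟨v⟩ := ‹Nonempty V›
    obtain ⟨w, hw⟩ := hnb v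
    by_cases hvw : h v ≤ h w
    · exact ⟨⟨(v, w), hw⟩, by simp only; nlinarith [h0 v]⟩
    · exact ⟨⟨(w, v), hw.symm⟩, by simp only; nlinarith [h0 w, not_le.mp hvw]⟩
  obtain ⟨g, hg01, hg, e, e', hne⟩ := nb_core (outD G) SimpleGraph.Dart.symm q t ((1 - t) ^ 2)
    (fun e => e.symm_symm) (card_outD G q hreg)
    (by
      intro e f hf
      rw [mem_outD] at hf ⊢
      exact ⟨hf.1.symm, fun h => hf.2 h.symm⟩)
    (by
      intro e f x hx hx' hef
      rw [mem_outD] at hx hx' ⊢
      refine ⟨hx'.1.symm.trans hx.1, fun h => hef ?_⟩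
      apply SimpleGraph.Dart.ext
      ext
      · exact h.symm
      · exact hx.1.symm.trans hx'.1)
    ht0 ht1 htq (fun e => h e.snd - t * h e.fst) (fun e => h e.snd - t ^ 2 * h e.fst)
    (fun e => sub_nonneg.mpr (har e.adj))
    (by
      intro e
      rw [hsum]
      have h1 := hs e.snd
      have h2 : t * (t * q * h e.snd) = h e.snd := by
        linear_combination (h e.snd) * htq
      nlinarith)
    (by
      intro e
      have h1 := har e.adj
      have h2 := h0 e.fst
      have h3 : 0 < t * h e.fst := mul_pos ht0 h2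
      nlinarith)
    (by
      intro e
      rw [hsum]
      have h1 := mul_le_mul_of_nonneg_left (hs e.snd) ht0.le
      have h2 : t ^ 2 * (t ^ 2 * q * h e.snd) = t ^ 2 * h e.snd := by rw [htq, one_mul]
      have h3 : 0 ≤ (1 - t) ^ 2 * (t ^ 2 * h e.fst) := mul_nonneg (sq_nonneg _)
        (mul_nonneg (sq_nonneg _) (h0 _).le)
      nlinarith)
    (by
      have : 0 < 1 - t := by linarith
      positivity)
    (by nlinarith) e0 he0
    (by
      intro ε hε
      obtain ⟨v, hv⟩ := inf_zero G q hreg t ht0 ht1 htq h h0 hs (t * ε) (mul_pos ht0 hε)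
      obtain ⟨w, hw⟩ := hnb v
      have h1 := har hw.symm
      have h2 : h w ≤ ε := by
        have : t * h w ≤ t * ε := by linarith
        exact le_of_mul_le_mul_left this ht0
      have h3 : h v ≤ ε := by nlinarith
      have h4 := mul_pos ht0 (h0 v)
      have h5 := mul_pos ht0 (h0 w)
      have h6 : 0 ≤ t ^ 2 * h v := mul_nonneg (sq_nonneg _) (h0 v).le
      refine ⟨⟨(v, w), hw⟩, ?_, ?_, ?_⟩
      · simp only; linarith
      · show h v - t * h w ≤ ε
        linarith
      · simp only; linarith)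
  set g' : V → V → ℝ := fun u v => if huv : G.Adj u v then g ⟨(u, v), huv⟩ else 0 with hg'
  have hgg : ∀ x : G.Dart, g x = g' x.fst x.snd := by
    intro x
    simp only [hg']
    rw [dif_pos x.adj]
  set f : V → ℝ := fun v => ∑ w ∈ G.neighborFinset v, g' v w with hf
  have hq0 : (0 : ℝ) < q := by
    by_contra hneg
    have : (q : ℝ) = 0 := le_antisymm (not_lt.mp hneg) (Nat.cast_nonneg q)
    rw [this] at htq
    simp at htq
  have hq1 : (1 : ℝ) < q := by nlinarith
  have rel : ∀ u v, G.Adj u v → q * g' u v + g' v u = f v := by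
    intro u v huv
    have h1 := hg ⟨(u, v), huv⟩
    simp_rw [hgg] at h1
    rw [sum_outD G ⟨(u, v), huv⟩ g'] at h1
    simp only at h1
    have h2 : (q : ℝ) * (t ^ 2 * (∑ w ∈ G.neighborFinset v, g' v w - g' v u))
        = ∑ w ∈ G.neighborFinset v, g' v w - g' v u := by
      rw [← mul_assoc, mul_comm (q : ℝ), htq, one_mul]
    rw [h1] at h2
    simp only [hf]
    linarith
  refine ⟨f, ⟨q + 1, fun v => ?_⟩, fun u => ?_, ?_⟩
  · have b1 : ∀ w, 0 ≤ g' v w ∧ g' v w ≤ 1 := by
      intro w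
      simp only [hg']
      split_ifs
      · exact hg01 _
      · norm_num
    rw [abs_of_nonneg (Finset.sum_nonneg fun w _ => (b1 w).1)]
    have : ∑ w ∈ G.neighborFinset v, g' v w ≤ ∑ w ∈ G.neighborFinset v, (1 : ℝ) :=
      Finset.sum_le_sum fun w _ => (b1 w).2
    rwa [Finset.sum_const, nsmul_eq_mul, mul_one, hcardN] at this
  · have s1 : ∑ v ∈ G.neighborFinset u, (q * g' u v + g' v u) = ∑ v ∈ G.neighborFinset u, f v :=
      Finset.sum_congr rfl fun v hv => rel u v ((G.mem_neighborFinset _ _).mp hv)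
    have s2 : ∑ v ∈ G.neighborFinset u, (q * g' v u + g' u v) = ∑ v ∈ G.neighborFinset u, f u :=
      Finset.sum_congr rfl fun v hv => rel v u ((G.mem_neighborFinset _ _).mp hv).symm
    rw [Finset.sum_add_distrib, ← Finset.mul_sum] at s1 s2
    rw [Finset.sum_const, nsmul_eq_mul, hcardN] at s2
    have s3 : ∑ v ∈ G.neighborFinset u, g' u v = f u := rfl
    rw [s3] at s1 s2
    have s4 : ∑ v ∈ G.neighborFinset u, g' v u = f u := by
      have : (q : ℝ) * ∑ v ∈ G.neighborFinset u, g' v u = q * f u := by linarith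
      exact mul_left_cancel₀ hq0.ne' this
    rw [← s1, s4]
    ring
  · by_contra hcon
    push Not at hcon
    apply hne
    have key : ∀ x : G.Dart, (q + 1 : ℝ) * g x = f e.fst := by
      intro x
      have r1 := rel _ _ x.adj
      have r2 := rel _ _ x.adj.symm
      rw [hcon x.snd e.fst] at r1
      rw [hcon x.fst e.fst] at r2
      rw [hgg]
      have : (q - 1 : ℝ) * (g' x.fst x.snd - g' x.snd x.fst) = 0 := by linarith
      have h3 : g' x.fst x.snd - g' x.snd x.fst = 0 := by
        rcases mul_eq_zero.mp this with h4 | h4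
        · linarith
        · exact h4
      linarith
    have : (q + 1 : ℝ) * g e = (q + 1 : ℝ) * g e' := by rw [key, key]
    exact mul_left_cancel₀ (by linarith) this

omit [DecidableEq V] [G.LocallyFinite] in
lemma summable_of_limsup (N : ℕ → ℝ) (hN : ∀ n, 0 ≤ N n) (d ρ : ℝ) (hd : 0 < d) (hρ : 0 < ρ)
    (hl : Filter.limsup (fun n : ℕ => (N n / d ^ n) ^ ((1 : ℝ) / (n : ℝ))) Filter.atTop = ρ)
    (z : ℝ) (hz : 0 < z) (hzρ : z * d * ρ < 1) : Summable fun n : ℕ => z ^ n * N n := by
  have hzd : 0 < z * d := mul_pos hz hd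
  obtain ⟨r, hr1, hr2⟩ := exists_between (show ρ < 1 / (z * d) by
    rw [lt_div_iff₀ hzd]; linarith)
  rw [Filter.limsup_eq] at hl
  have hne : {a : ℝ | ∀ᶠ n : ℕ in Filter.atTop, (N n / d ^ n) ^ ((1 : ℝ) / (n : ℝ)) ≤ a}.Nonempty := by
    by_contra hemp
    rw [Set.not_nonempty_iff_eq_empty] at hemp
    rw [hemp, Real.sInf_empty] at hl
    linarith
  obtain ⟨a, ha, har⟩ := exists_lt_of_csInf_lt hne (hl ▸ hr1)
  have hr0 : 0 < r := by linarith
  have hlt : z * d * r < 1 := by
    rw [lt_div_iff₀ hzd] at hr2; linarith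
  refine Summable.of_norm_bounded_eventually_nat
    (summable_geometric_of_lt_one (mul_pos hzd hr0).le hlt) ?_
  filter_upwards [ha, Filter.eventually_ge_atTop 1] with n hn hn1
  have hn0 : n ≠ 0 := by omega
  have hx : 0 ≤ N n / d ^ n := div_nonneg (hN n) (by positivity)
  have h1 : N n / d ^ n ≤ r ^ n := by
    have h2 := pow_le_pow_left₀ (Real.rpow_nonneg hx _) (hn.trans har.le) n
    rwa [one_div, Real.rpow_inv_natCast_pow hx hn0] at h2
  rw [div_le_iff₀ (by positivity)] at h1
  rw [Real.norm_eq_abs, abs_of_nonneg (mul_nonneg (by positivity) (hN n)), mul_pow, mul_pow]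
  have := mul_le_mul_of_nonneg_left h1 (pow_nonneg hz.le n)
  linarith

end Pool.Agent.P.MP_542002_pr
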