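import Pool.Agent.P.MP_542002_pr.Core

/-!
The total variation lower bound and the bounded harmonic function on darts.
-/

namespace Pool.Agent.P.MP_542002_pr

open Finset

variable {E : Type*} [DecidableEq E]

/-- The overlap bound for the two killed walks. -/
lemma overlap_bound (o : E → Finset E) (J : E → E) (q : ℕ) (t κ : ℝ)
    (hJ : ∀ e, J (J e) = e) (hcard : ∀ e, (o e).card = q)
    (hrev : ∀ e f, f ∈ o e → J e ∈ o (J f))
    (hmerge : ∀ e f x, x ∈ o e → x ∈ o f → e ≠ f → J f ∈ o e)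
    (ht0 : 0 < t) (ht1 : t < 1) (htq : t ^ 2 * q = 1)
    (φ φ' : E → ℝ) (hφ0 : ∀ e, 0 ≤ φ e) (hφ : ∀ e, t * ∑ x ∈ o e, φ x ≤ φ e)
    (hφ'0 : ∀ e, 0 < φ' e) (hφ' : ∀ e, t ^ 2 * ∑ x ∈ o e, φ' x ≤ (1 - κ) * φ' e)
    (hκ : 0 < κ) (e0 : E) (he0 : 0 < φ e0) (e1 : E) (n : ℕ) :
    ∑ k ∈ range n, ∑ l ∈ range n, (t ^ 2) ^ (max k l) *
      ev ((step (oOne o e0))^[k] {e1}) (fun x => ev ((step (oTwo o (J e0)))^[l] {J e0})
        (fun y => if x = y then (1 : ℝ) else 0))
      ≤ n * (2 * (φ e1 / φ e0) / (t * (1 - t)) + φ' e1 / (κ * φ' (J e0)) + φ (J e1) / φ e0) := by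
  set o1 := oOne o e0 with ho1
  set o2 := oTwo o (J e0) with ho2
  set δ : E → ℝ := fun x => if x = e0 then (1 : ℝ) else 0 with hδ
  have hδ0 : ∀ x, 0 ≤ δ x := fun x => by simp only [hδ]; split_ifs <;> norm_num
  have hG : ∀ M e, ∑ m ∈ range M, t ^ m * (tr o1)^[m] δ e ≤ φ e / φ e0 := by
    intro M e
    apply green_bound o1 t ht0.le δ (fun e => φ e / φ e0) (fun e => div_nonneg (hφ0 e) he0.le)
    intro e
    by_cases h : e = e0
    · subst h
      simp [ho1, oOne, hδ, he0.ne']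
    · simp only [ho1, oOne, hδ, if_neg h, zero_add]
      rw [← Finset.sum_div, ← mul_div_assoc]
      exact div_le_div_of_nonneg_right (hφ e) he0.le
  have hs0 : 0 ≤ t ^ 2 := by positivity
  set c : ℕ → ℝ := fun m => (tr o1)^[m] δ e1 with hc
  have hc0 : ∀ m, 0 ≤ c m := fun m => iter_tr_nonneg o1 δ hδ0 m e1
  apply diag_rec _ (fun k l => (t ^ 2) ^ (max k l) * c (k + l + 1))
  · intro k l
    rw [Function.iterate_succ_apply', Function.iterate_succ_apply']
    have h1 := merge_one o J e0 q hcard hmerge ((step o1)^[k] {e1}) ((step o2)^[l] {J e0})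
    have h2 := shift_all o J e0 hJ hrev l (step o1 ((step o1)^[k] {e1}))
    rw [← ho1, ← ho2] at h1 h2
    rw [h2] at h1
    have h3 : ev ((step o1)^[l] (step o1 ((step o1)^[k] {e1})))
        (fun x => if x = e0 then (1 : ℝ) else 0) = c (k + l + 1) := by
      rw [← Function.iterate_succ_apply (step o1) l, ← Function.iterate_add_apply, ev_iter,
        ev_singleton]
      have hkl : l.succ + k = k + l + 1 := by omega
      rw [hkl]
    rw [h3] at h1
    have hm : max (k + 1) (l + 1) = max k l + 1 := by omega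
    rw [hm]
    have h4 := mul_le_mul_of_nonneg_left h1 (pow_nonneg hs0 (max k l + 1))
    refine h4.trans (le_of_eq ?_)
    rw [pow_succ (t ^ 2), mul_add, mul_assoc, mul_assoc, ← mul_assoc (t ^ 2), ← mul_assoc (t ^ 2),
      htq, one_mul, one_mul]
  · intro l
    exact mul_nonneg (pow_nonneg hs0 _) (ev_nonneg fun x _ => ev_ind_nonneg _ _)
  · intro n
    exact diag_sum t ht0 ht1 c hc0 _ (fun M => hG M e1) n
  · intro n
    have hκφ : 0 < κ * φ' (J e0) := mul_pos hκ (hφ'0 _)
    have h1 := green_bound o1 (t ^ 2) hs0 (fun x => if x = J e0 then (1 : ℝ) else 0)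
      (fun e => φ' e / (κ * φ' (J e0))) (fun e => div_nonneg (hφ'0 e).le hκφ.le) ?_ n e1
    · refine le_trans (le_of_eq ?_) h1
      apply Finset.sum_congr rfl
      intro k _
      simp only [Function.iterate_zero, id, ev_singleton, Nat.max_zero]
      rw [ev_iter, ev_singleton]
    · intro e
      have h2 : ∑ x ∈ o1 e, φ' x ≤ ∑ x ∈ o e, φ' x := by
        apply Finset.sum_le_sum_of_subset_of_nonneg
        · simp only [ho1, oOne]; split_ifs <;> simp
        · intro x _ _; exact (hφ'0 x).le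
      have h3 := (mul_le_mul_of_nonneg_left h2 hs0).trans (hφ' e)
      rw [← Finset.sum_div, ← mul_div_assoc, le_div_iff₀ hκφ, add_mul, div_mul_cancel₀ _ hκφ.ne']
      split_ifs with h
      · subst h; linarith
      · have := mul_pos hκ (hφ'0 e)
        linarith
  · intro n
    refine le_trans ?_ (hG n (J e1))
    apply Finset.sum_le_sum
    intro l _
    have h2 := shift_all o J e0 hJ hrev l {J e1}
    rw [← ho1, ← ho2, ev_iter o1, ev_singleton, ev_singleton] at h2
    simp only [Function.iterate_zero, id, ev_singleton, Nat.zero_max]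
    have h3 : ev ((step o2)^[l] {J e0}) (fun y => if e1 = y then (1 : ℝ) else 0)
        = ev ((step o2)^[l] {J e0}) (fun y => if J e1 = J y then (1 : ℝ) else 0) := by
      apply ev_congr
      intro y _
      congr 1
      apply propext
      constructor
      · rintro rfl; rfl
      · intro h
        rw [← hJ e1, h, hJ]
    rw [h3, h2]
    apply mul_le_mul_of_nonneg_right _ (iter_tr_nonneg o1 δ hδ0 l _)
    apply pow_le_pow_left₀ hs0
    nlinarith

/-- For each `n` a test function separating the Cesàro averages of the two walks. -/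
lemma separate (o : E → Finset E) (J : E → E) (q : ℕ) (t κ : ℝ)
    (hJ : ∀ e, J (J e) = e) (hcard : ∀ e, (o e).card = q)
    (hrev : ∀ e f, f ∈ o e → J e ∈ o (J f))
    (hmerge : ∀ e f x, x ∈ o e → x ∈ o f → e ≠ f → J f ∈ o e)
    (ht0 : 0 < t) (ht1 : t < 1) (htq : t ^ 2 * q = 1)
    (φ φ' : E → ℝ) (hφ0 : ∀ e, 0 ≤ φ e) (hφ : ∀ e, t * ∑ x ∈ o e, φ x ≤ φ e)
    (hφ'0 : ∀ e, 0 < φ' e) (hφ' : ∀ e, t ^ 2 * ∑ x ∈ o e, φ' x ≤ (1 - κ) * φ' e)
    (hκ : 0 < κ) (hκ1 : κ ≤ 1) (e0 : E) (he0 : 0 < φ e0) (e1 : E) (n : ℕ) :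
    ∃ ψ : E → ℝ, (∀ e, 0 ≤ ψ e ∧ ψ e ≤ 1) ∧
      n * (κ - φ e1 / φ e0 - 2 * (2 * (φ e1 / φ e0) / (t * (1 - t)) + φ' e1 / (κ * φ' (J e0))
        + φ (J e1) / φ e0))
      ≤ ∑ k ∈ range n, (t ^ 2) ^ k * (tr o)^[k] ψ e1
        - ∑ k ∈ range n, (t ^ 2) ^ k * (tr o)^[k] ψ (J e0) := by
  have hov := overlap_bound o J q t κ hJ hcard hrev hmerge ht0 ht1 htq φ φ' hφ0 hφ hφ'0 hφ' hκ
    e0 he0 e1 n
  set o1 := oOne o e0 with ho1
  set o2 := oTwo o (J e0) with ho2
  set s := t ^ 2 with hs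
  have hs0 : 0 ≤ s := by positivity
  have hst : s ≤ t := by rw [hs]; nlinarith
  set Z : ℕ → Multiset E := fun k => (step o1)^[k] {e1} with hZ
  set W : ℕ → Multiset E := fun k => (step o2)^[k] {J e0} with hW
  set α : E → ℝ := fun x =>
    ∑ k ∈ range n, s ^ k * ev (Z k) (fun y => if x = y then (1 : ℝ) else 0) with hα
  set β : E → ℝ := fun x =>
    ∑ k ∈ range n, s ^ k * ev (W k) (fun y => if x = y then (1 : ℝ) else 0) with hβ
  set ψ : E → ℝ := fun x => if β x < α x then 1 else 0 with hψ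
  have hψ01 : ∀ e, 0 ≤ ψ e ∧ ψ e ≤ 1 := fun e => by
    simp only [hψ]; split_ifs <;> norm_num
  refine ⟨ψ, hψ01, ?_⟩
  have hcard' : ∀ e, s * ((o e).card : ℝ) = 1 := fun e => by rw [hcard, htq]
  have c1 := cover_one Z W s hs0 n (fun x => 1 - ψ x) (by
    intro x
    by_cases h : β x < α x
    · left; simp [hψ, h]
    · right; exact ⟨by simp [hψ, h], not_lt.mp h⟩)
  have c2 := cover_one W Z s hs0 n ψ (by
    intro x
    by_cases h : β x < α x
    · right; exact ⟨by simp [hψ, h], h.le⟩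
    · left; simp [hψ, h])
  have c3 : ∑ k ∈ range n, ∑ l ∈ range n, s ^ (max k l) *
        ev (W k) (fun x => ev (Z l) (fun y => if x = y then (1 : ℝ) else 0))
      = ∑ k ∈ range n, ∑ l ∈ range n, s ^ (max k l) *
        ev (Z k) (fun x => ev (W l) (fun y => if x = y then (1 : ℝ) else 0)) := by
    rw [Finset.sum_comm]
    apply Finset.sum_congr rfl
    intro k _
    apply Finset.sum_congr rfl
    intro l _
    rw [ev_comm, max_comm]
    simp_rw [eq_comm]
  rw [c3] at c2
  have k1 : ∀ k, s ^ k * (tr o)^[k] (fun x => 1 - ψ x) e1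
      ≤ s ^ k * ev (Z k) (fun x => 1 - ψ x) + φ e1 / φ e0 := by
    intro k
    have := (kill_bound o o1 (by
        intro e; simp only [ho1, oOne]; split_ifs <;> simp) s hs0 hcard'
      (fun e => φ e / φ e0) (fun e => div_nonneg (hφ0 e) he0.le) (by
        intro e
        by_cases h : e = e0
        · subst h
          simp [ho1, oOne, he0.ne', hcard']
        · simp only [ho1, oOne, if_neg h, Finset.sdiff_self, Finset.card_empty, Nat.cast_zero,
            add_zero]
          rw [← Finset.sum_div, ← mul_div_assoc]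
          apply div_le_div_of_nonneg_right _ he0.le
          refine le_trans ?_ (hφ e)
          exact mul_le_mul_of_nonneg_right hst (Finset.sum_nonneg fun x _ => hφ0 x))
      (fun x => 1 - ψ x) (fun e => by linarith [(hψ01 e).1]) k e1).2
    simp only [hZ]
    rw [ev_iter, ev_singleton]
    exact this
  have k2 : ∀ k, s ^ k * (tr o)^[k] ψ (J e0) ≤ s ^ k * ev (W k) ψ + (1 - κ) := by
    intro k
    have hp := hφ'0 (J e0)
    have := (kill_bound o o2 (by
        intro e; simp only [ho2, oTwo]; exact Finset.erase_subset _ _) s hs0 hcard'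
      (fun e => (1 - κ) * φ' e / φ' (J e0))
      (fun e => div_nonneg (mul_nonneg (by linarith) (hφ'0 e).le) hp.le) (by
        intro e
        have a1 : ∑ x ∈ o2 e, (1 - κ) * φ' x / φ' (J e0) ≤ ∑ x ∈ o2 e, φ' x / φ' (J e0) := by
          apply Finset.sum_le_sum
          intro x _
          apply div_le_div_of_nonneg_right _ hp.le
          nlinarith [hφ'0 x]
        have a2 : ((o e \ o2 e).card : ℝ) = ∑ x ∈ o e \ o2 e, φ' x / φ' (J e0) := by
          rw [Finset.card_eq_sum_ones, Nat.cast_sum]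
          apply Finset.sum_congr rfl
          intro x hx
          simp only [ho2, oTwo, Finset.mem_sdiff, Finset.mem_erase, not_and] at hx
          have : x = J e0 := by
            by_contra h
            exact hx.2 h hx.1
          rw [this, div_self hp.ne']
          simp
        have a3 : ∑ x ∈ o e \ o2 e, φ' x / φ' (J e0) + ∑ x ∈ o2 e, φ' x / φ' (J e0)
            = ∑ x ∈ o e, φ' x / φ' (J e0) :=
          Finset.sum_sdiff (by simp only [ho2, oTwo]; exact Finset.erase_subset _ _)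
        have a4 : s * ∑ x ∈ o e, φ' x / φ' (J e0) ≤ (1 - κ) * φ' e / φ' (J e0) := by
          rw [← Finset.sum_div, ← mul_div_assoc]
          exact div_le_div_of_nonneg_right (hφ' e) hp.le
        refine le_trans ?_ a4
        apply mul_le_mul_of_nonneg_left _ hs0
        linarith)
      ψ (fun e => (hψ01 e).2) k (J e0)).2
    simp only [hW]
    rw [ev_iter, ev_singleton]
    rwa [mul_div_assoc, div_self hp.ne', mul_one] at this
  have k1' : ∑ k ∈ range n, (1 - s ^ k * (tr o)^[k] ψ e1)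
      ≤ ∑ k ∈ range n, (s ^ k * ev (Z k) (fun x => 1 - ψ x) + φ e1 / φ e0) := by
    apply Finset.sum_le_sum
    intro k _
    rw [← iter_tr_one_sub o s hcard']
    exact k1 k
  have k2' : ∑ k ∈ range n, s ^ k * (tr o)^[k] ψ (J e0)
      ≤ ∑ k ∈ range n, (s ^ k * ev (W k) ψ + (1 - κ)) := Finset.sum_le_sum fun k _ => k2 k
  rw [Finset.sum_sub_distrib, Finset.sum_add_distrib] at k1'
  rw [Finset.sum_add_distrib] at k2'
  simp only [Finset.sum_const, Finset.card_range, nsmul_eq_mul, mul_one] at k1' k2'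
  nlinarith

/-- The abstract theorem: a bounded non-constant harmonic function for the non-backtracking walk. -/
theorem nb_core (o : E → Finset E) (J : E → E) (q : ℕ) (t κ : ℝ)
    (hJ : ∀ e, J (J e) = e) (hcard : ∀ e, (o e).card = q)
    (hrev : ∀ e f, f ∈ o e → J e ∈ o (J f))
    (hmerge : ∀ e f x, x ∈ o e → x ∈ o f → e ≠ f → J f ∈ o e)
    (ht0 : 0 < t) (ht1 : t < 1) (htq : t ^ 2 * q = 1)
    (φ φ' : E → ℝ) (hφ0 : ∀ e, 0 ≤ φ e) (hφ : ∀ e, t * ∑ x ∈ o e, φ x ≤ φ e)
    (hφ'0 : ∀ e, 0 < φ' e) (hφ' : ∀ e, t ^ 2 * ∑ x ∈ o e, φ' x ≤ (1 - κ) * φ' e)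
    (hκ : 0 < κ) (hκ1 : κ ≤ 1) (e0 : E) (he0 : 0 < φ e0)
    (hsmall : ∀ ε : ℝ, 0 < ε → ∃ e, φ e ≤ ε ∧ φ (J e) ≤ ε ∧ φ' e ≤ ε) :
    ∃ g : E → ℝ, (∀ e, 0 ≤ g e ∧ g e ≤ 1) ∧ (∀ e, t ^ 2 * ∑ x ∈ o e, g x = g e) ∧
      ∃ e f, g e ≠ g f := by
  have h1t : 0 < 1 - t := by linarith
  have hp := hφ'0 (J e0)
  set C : ℝ := 1 / φ e0 + 2 * (2 * (1 / φ e0) / (t * (1 - t)) + 1 / (κ * φ' (J e0)) + 1 / φ e0)
    with hC
  have hC0 : 0 < C := by positivity
  obtain ⟨e1, s1, s2, s3⟩ := hsmall (κ / (2 * C)) (by positivity)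
  set ε := κ / (2 * C) with hε
  have hεC : ε * C = κ / 2 := by rw [hε]; field_simp
  have hgap : κ / 2 ≤ κ - φ e1 / φ e0 - 2 * (2 * (φ e1 / φ e0) / (t * (1 - t))
      + φ' e1 / (κ * φ' (J e0)) + φ (J e1) / φ e0) := by
    have b1 : φ e1 / φ e0 ≤ ε / φ e0 := div_le_div_of_nonneg_right s1 he0.le
    have b2 : φ (J e1) / φ e0 ≤ ε / φ e0 := div_le_div_of_nonneg_right s2 he0.le
    have b3 : φ' e1 / (κ * φ' (J e0)) ≤ ε / (κ * φ' (J e0)) :=
      div_le_div_of_nonneg_right s3 (by positivity)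
    have b4 : 2 * (φ e1 / φ e0) / (t * (1 - t)) ≤ 2 * (ε / φ e0) / (t * (1 - t)) :=
      div_le_div_of_nonneg_right (by linarith) (by positivity)
    have b5 : ε * C = ε / φ e0 + 2 * (2 * (ε / φ e0) / (t * (1 - t)) + ε / (κ * φ' (J e0))
        + ε / φ e0) := by
      rw [hC]; ring
    linarith
  have hsep := fun n => separate o J q t κ hJ hcard hrev hmerge ht0 ht1 htq φ φ' hφ0 hφ hφ'0 hφ'
    hκ hκ1 e0 he0 e1 n
  choose ψ hψ01 hψ using hsep
  set s := t ^ 2 with hs
  have hs0 : 0 ≤ s := by positivity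
  have hcard' : ∀ e, s * ((o e).card : ℝ) = 1 := fun e => by rw [hcard, htq]
  set u : ℕ → ℕ → E → ℝ := fun n k e => s ^ k * (tr o)^[k] (ψ n) e with hu
  have hu0 : ∀ n k e, 0 ≤ u n k e := fun n k e =>
    mul_nonneg (pow_nonneg hs0 _) (iter_tr_nonneg o _ (fun e => (hψ01 n e).1) k e)
  have hu1 : ∀ n k e, u n k e ≤ 1 := fun n k e =>
    (kill_bound o o (fun _ => subset_rfl) s hs0 hcard' (fun _ => 0) (fun _ => le_rfl)
      (by simp) (ψ n) (fun e => (hψ01 n e).2) k e).1
  have hustep : ∀ n k e, s * ∑ x ∈ o e, u n k x = u n (k + 1) e := by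
    intro n k e
    simp only [hu]
    rw [Function.iterate_succ_apply', ← Finset.mul_sum]
    simp only [tr]
    ring
  set g : ℕ → E → ℝ := fun n e => (∑ k ∈ range (n + 1), u (n + 1) k e) / (n + 1 : ℝ) with hg
  have hn : ∀ n : ℕ, (0 : ℝ) < n + 1 := fun n => by positivity
  have hg01 : ∀ n e, g n e ∈ Set.Icc (0 : ℝ) 1 := by
    intro n e
    constructor
    · exact div_nonneg (Finset.sum_nonneg fun k _ => hu0 _ _ _) (hn n).le
    · simp only [hg]
      rw [div_le_one (hn n)]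
      have : ∑ k ∈ range (n + 1), u (n + 1) k e ≤ ∑ k ∈ range (n + 1), (1 : ℝ) :=
        Finset.sum_le_sum fun k _ => hu1 _ _ _
      simpa using this
  obtain ⟨U, f, hU, hUle, hf⟩ := exists_ultralimit g (fun _ => 0) (fun _ => 1) hg01
  refine ⟨f, fun e => ?_, fun e => ?_, e1, J e0, ?_⟩
  · exact isClosed_Icc.mem_of_tendsto (hf e) (Filter.Eventually.of_forall fun n => hg01 n e)
  · have l1 : Filter.Tendsto (fun n => s * ∑ x ∈ o e, g n x - g n e) U
        (nhds (s * ∑ x ∈ o e, f x - f e)) :=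
      ((tendsto_finsetSum _ fun x _ => hf x).const_mul s).sub (hf e)
    have l2 : Filter.Tendsto (fun n => s * ∑ x ∈ o e, g n x - g n e) Filter.atTop (nhds 0) := by
      apply squeeze_zero_norm (a := fun n : ℕ => 1 / (n + 1 : ℝ))
      · intro n
        have e2 : s * ∑ x ∈ o e, g n x - g n e
            = (u (n + 1) (n + 1) e - u (n + 1) 0 e) / (n + 1 : ℝ) := by
          simp only [hg]
          rw [← Finset.sum_div, ← mul_div_assoc, ← sub_div, Finset.sum_comm, Finset.mul_sum]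
          simp_rw [hustep]
          congr 1
          rw [← Finset.sum_sub_distrib, Finset.sum_range_sub (fun k => u (n + 1) k e)]
        rw [e2, Real.norm_eq_abs, abs_div, abs_of_pos (hn n)]
        apply div_le_div_of_nonneg_right _ (hn n).le
        rw [abs_le]
        constructor <;> linarith [hu0 (n + 1) (n + 1) e, hu1 (n + 1) (n + 1) e,
          hu0 (n + 1) 0 e, hu1 (n + 1) 0 e]
      · exact tendsto_one_div_add_atTop_nhds_zero_nat
    have := tendsto_nhds_unique l1 (l2.mono_left hUle)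
    linarith
  · have l1 : Filter.Tendsto (fun n => g n e1 - g n (J e0)) U (nhds (f e1 - f (J e0))) :=
      (hf e1).sub (hf (J e0))
    have l2 : κ / 2 ≤ f e1 - f (J e0) := by
      apply ge_of_tendsto' l1
      intro n
      simp only [hg]
      rw [← sub_div, le_div_iff₀ (hn n)]
      have h1 := hψ (n + 1)
      have h2 := mul_le_mul_of_nonneg_left hgap (hn n).le
      push_cast at h1
      simp only [hu]
      linarith
    intro h
    linarith

end Pool.Agent.P.MP_542002_pr
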